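import Mathlib
import Pool.Agent.Lib.MP_2ce84e_co.Defs
import Pool.Agent.Lib.MP_2ce84e_co.Values

/-!
# The delayed game domatic number of a disjoint union is not a function of the four numbers

`K₃` and `K₃,₃` have the same game domatic numbers `(γ_A, γ_B) = (2, 2)`, but
`γ_B(K₂ ∪ K₃) = 1` and `γ_B(K₂ ∪ K₃,₃) = 2`.
-/

open Pool.Agent.Lib.MP_2ce84e_co

namespace Pool.Agent.Lib.MP_2ce84e_co.Old.GameB

/-- There is no function expressing `γ_B` of a disjoint union of two finite nonempty graphs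
through the numbers `γ_A` and `γ_B` of the two graphs. -/
theorem result : ¬ ∃ f : ℕ → ℕ → ℕ → ℕ → ℕ, ∀ (V W : Type) [Finite V] [Finite W] [Nonempty V]
    [Nonempty W] (G : SimpleGraph V) (H : SimpleGraph W),
    gammaB (G ⊕g H) = f (gammaA G) (gammaB G) (gammaA H) (gammaB H) := by
  rintro ⟨f, hf⟩
  have h1 := hf _ _ K2 K3
  have h2 := hf _ _ K2 K33
  rw [gammaB_K2K3, gammaA_K3, gammaB_K3] at h1
  rw [gammaB_K2K33, gammaA_K33, gammaB_K33] at h2
  omega

end Pool.Agent.Lib.MP_2ce84e_co.Old.GameB
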